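import Pool.Agent.P.MP_9167e9_an.StG

/-!
Module BAS: elementary facts on one cell.
-/

noncomputable section
open scoped Classical

namespace Pool.Agent.P.MP_9167e9_an

namespace Bas

open FreeGroup

variable {P : Prm} {c : Cell P}

theorem nr_mk {A : Type} {u : List (A × Bool)} (h : IsReduced u) : nr (mk u) = u.length :=
  congrArg List.length (@IsReduced.reduce_eq A u (Classical.decEq A) h)
theorem nr_inv {A : Type} (x : FreeGroup A) : nr x⁻¹ = nr x := @norm_inv_eq A (Classical.decEq A) x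
theorem nr_mul {A : Type} (x y : FreeGroup A) : nr (x * y) ≤ nr x + nr y :=
  @norm_mul_le A (Classical.decEq A) x y
theorem nr_zero {A : Type} (x : FreeGroup A) : nr x = 0 ↔ x = 1 :=
  @norm_eq_zero A (Classical.decEq A) x

theorem ex_red {A : Type} (x : FreeGroup A) : ∃ u, IsReduced u ∧ x = mk u :=
  ⟨@toWord A (Classical.decEq A) x, @isReduced_toWord A (Classical.decEq A) x,
    (@mk_toWord A (Classical.decEq A) x).symm⟩

theorem red_tail {A : Type} {l : A × Bool} {u : List (A × Bool)} (h : IsReduced (l :: u)) :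
    IsReduced u := List.IsChain.right_of_append (l₁ := [l]) h
theorem mk_cons {A : Type} (l : A × Bool) (u : List (A × Bool)) : mk (l :: u) = mk [l] * mk u := rfl
theorem mk_true {A : Type} (s : A) : mk [(s, true)] = of s := rfl
theorem mk_false {A : Type} (s : A) : mk [(s, false)] = (of s)⁻¹ := rfl
theorem mk_nil {A : Type} : (mk [] : FreeGroup A) = 1 := rfl

theorem vx_one : c.vx 1 = c.v0 := by simp [Cell.vx]
theorem vx_mul' (x y : FreeGroup P.S) :
    c.vx (x * y) = FreeGroup.lift (fun s => c.τ (P.slot s)) x (c.vx y) := by simp [Cell.vx]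
theorem vx_of (s : P.S) (x : FreeGroup P.S) : c.vx (of s * x) = c.τ (P.slot s) (c.vx x) := by
  simp [vx_mul']
theorem vx_inv (s : P.S) (x : FreeGroup P.S) :
    c.vx ((of s)⁻¹ * x) = (c.τ (P.slot s))⁻¹ (c.vx x) := by
  simp [vx_mul']

theorem vx_mul (x p : FreeGroup P.S) (h : c.vx p = c.v0) : c.vx (x * p) = c.vx x := by
  rw [vx_mul', h]; rfl

theorem pr_mul (x y : FreeGroup P.S) : pr (x * y) = pr x + pr y := by simp [pr]
theorem pr_one : pr (1 : FreeGroup P.S) = 0 := by simp [pr]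
theorem pr_of (s : P.S) : pr (of s) = 1 := by simp [pr]
theorem pr_inv (x : FreeGroup P.S) : pr x⁻¹ = - pr x := by simp [pr]
theorem cp_one : c.cp 1 = (c.v0, 0) := by simp [Cell.cp, vx_one, pr_one]
theorem cp_of (s : P.S) (x : FreeGroup P.S) :
    c.cp (of s * x) = dbl c.τ (P.slot s) (c.cp x) := by
  simp [Cell.cp, dbl, vx_of, pr_mul, pr_of, add_comm]

theorem cp_inv (s : P.S) (x : FreeGroup P.S) :
    c.cp ((of s)⁻¹ * x) = (dbl c.τ (P.slot s))⁻¹ (c.cp x) := by
  rw [Equiv.Perm.eq_inv_iff_eq, ← cp_of, mul_inv_cancel_left]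

/-- The slot word of a word. -/
def sw (v : List (P.S × Bool)) : List (Lt P.j) := v.map fun l => (P.slot l.1, l.2)

theorem cp_mk (x : FreeGroup P.S) : ∀ v : List (P.S × Bool),
    c.cp (mk v * x) = go (dbl c.τ) (sw v) (c.cp x)
  | [] => by simp [mk_nil, sw, go]
  | (s, b) :: v => by
    have ih := cp_mk x v
    rw [mk_cons, mul_assoc]
    cases b
    · rw [mk_false, cp_inv, ih]; rfl
    · rw [mk_true, cp_of, ih]; rfl

theorem go_fst {j : ℕ} {V : Type} (τ : Fin j → Equiv.Perm V) (a : V × ZMod 2) :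
    ∀ u : List (Lt j), (go (dbl τ) u a).1 = go τ u a.1
  | [] => rfl
  | (i, b) :: u => by
    have ih := go_fst τ a u
    cases b
    · show ((dbl τ i)⁻¹ (go (dbl τ) u a)).1 = (τ i)⁻¹ (go τ u a.1)
      rw [← ih]; rfl
    · show ((dbl τ i) (go (dbl τ) u a)).1 = (τ i) (go τ u a.1)
      rw [← ih]; rfl

theorem conn : Conn {x | c.Qc x} := by
  have key : ∀ x, c.Qc x → Relation.ReflTransGen
      (fun a b => b ∈ {x | c.Qc x} ∧ ∃ s, b = of s * a ∨ a = of s * b) 1 x ∧
      Relation.ReflTransGen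
      (fun a b => b ∈ {x | c.Qc x} ∧ ∃ s, b = of s * a ∨ a = of s * b) x 1 := by
    intro x hx
    induction hx with
    | one => exact ⟨.refl, .refl⟩
    | fwd x i hx ih =>
      exact ⟨ih.1.tail ⟨.fwd x i hx, _, Or.inl rfl⟩, ih.2.head ⟨hx, _, Or.inr rfl⟩⟩
    | bwd x i hx ih =>
      exact ⟨ih.1.tail ⟨.bwd x i hx, _, Or.inr (mul_inv_cancel_left _ _).symm⟩,
        ih.2.head ⟨hx, _, Or.inl (mul_inv_cancel_left _ _).symm⟩⟩
  exact fun x hx y hy => (key x hx).2.trans (key y hy).1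

theorem mulP (x p : FreeGroup P.S) (hx : c.Qc x) (hp : c.Qc p) (h : c.vx p = c.v0) :
    c.Qc (x * p) := by
  induction hx with
  | one => rwa [one_mul]
  | fwd x i _ ih =>
    rw [mul_assoc, ← vx_mul x p h]
    exact .fwd _ i ih
  | bwd x i _ ih =>
    rw [mul_assoc, ← vx_mul x p h]
    exact .bwd _ i ih

theorem div (hc : c.OK) (x z : FreeGroup P.S) (hx : c.Qc x) (hz : c.Qc z)
    (h : c.vx x = c.vx z) : c.Qc (x⁻¹ * z) ∧ c.vx (x⁻¹ * z) = c.v0 := by
  induction hx generalizing z with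
  | one => rw [inv_one, one_mul, ← h, vx_one]; exact ⟨hz, rfl⟩
  | fwd x i _ ih =>
    rw [vx_of, hc.lab_slot] at h
    rw [mul_inv_rev, mul_assoc, h]
    refine ih _ (.bwd z i hz) ?_
    rw [vx_inv, hc.lab_slot, ← h]
    simp
  | bwd x i _ ih =>
    rw [vx_inv, hc.lab_slot, Equiv.Perm.inv_eq_iff_eq] at h
    rw [mul_inv_rev, inv_inv, mul_assoc, h]
    refine ih _ (.fwd z i hz) ?_
    rw [vx_of, hc.lab_slot, ← h]

theorem invP (hc : c.OK) {p : FreeGroup P.S} (hp : c.Qc p) (h : c.vx p = c.v0) :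
    c.Qc p⁻¹ ∧ c.vx p⁻¹ = c.v0 := by
  simpa using div hc p 1 hp .one (h.trans vx_one.symm)

theorem memP (hc : c.OK) (x : FreeGroup P.S) : x ∈ c.Pg ↔ c.Qc x ∧ c.vx x = c.v0 := by
  refine ⟨fun h => ?_, fun h => Subgroup.subset_closure h⟩
  induction h using Subgroup.closure_induction with
  | mem x hx => exact hx
  | one => exact ⟨.one, vx_one⟩
  | mul x y _ _ hx hy => exact ⟨mulP x y hx.1 hy.1 hy.2, (vx_mul x y hy.2).trans hx.2⟩
  | inv x _ hx => exact invP hc hx.1 hx.2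

theorem memK' (hc : c.OK) (x : FreeGroup P.S) : x ∈ c.Kg ↔ x ∈ c.Pg ∧ pr x = 0 := by
  refine ⟨fun h => ?_, fun h => Subgroup.subset_closure ?_⟩
  · induction h using Subgroup.closure_induction with
    | mem x hx =>
      exact ⟨(memP hc x).2 ⟨hx.1, congrArg Prod.fst hx.2⟩, congrArg Prod.snd hx.2⟩
    | one => exact ⟨one_mem _, pr_one⟩
    | mul x y _ _ hx hy => exact ⟨mul_mem hx.1 hy.1, by rw [pr_mul, hx.2, hy.2, add_zero]⟩
    | inv x _ hx => exact ⟨inv_mem hx.1, by rw [pr_inv, hx.2, neg_zero]⟩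
  · obtain ⟨h1, h2⟩ := (memP hc x).1 h.1
    exact ⟨h1, Prod.ext h2 h.2⟩

theorem memK (hc : c.OK) (x : FreeGroup P.S) : x ∈ c.Kg ↔ c.Qc x ∧ c.cp x = (c.v0, 0) := by
  rw [memK' hc, memP hc, Cell.cp, Prod.mk.injEq, and_assoc]

theorem cp_eq (hc : c.OK) (x z : FreeGroup P.S) (hx : c.Qc x) (hz : c.Qc z) :
    c.cp x = c.cp z ↔ x⁻¹ * z ∈ c.Kg := by
  rw [memK' hc, memP hc, Cell.cp, Cell.cp, Prod.mk.injEq, pr_mul, pr_inv, neg_add_eq_zero]
  refine and_congr_left fun _ => ⟨div hc x z hx hz, fun h => ?_⟩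
  rw [← vx_mul x _ h.2, mul_inv_cancel_left]

/-- An edge of the lifted core. -/
def Gd (c : Cell P) (a : FreeGroup P.S × P.S) : Prop :=
  c.Qc a.1 ∧ c.Qc (of a.2 * a.1) ∧ a.2 = c.lab (c.vx (of a.2 * a.1)) (P.slot a.2)

variable {w : PreWS (FreeGroup P.S) (FreeGroup P.S × P.S)}

theorem W_tri {a : FreeGroup P.S × P.S} {x z : FreeGroup P.S} (y : FreeGroup P.S)
    (h : a ∈ w.W x z) : a ∈ w.W x y ∨ a ∈ w.W y z := by
  simp only [w.mem_W] at *
  by_contra h2
  push Not at h2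
  exact h (h2.1.trans h2.2)

theorem W_symm {a : FreeGroup P.S × P.S} {x z : FreeGroup P.S} (h : a ∈ w.W x z) :
    a ∈ w.W z x := by
  simp only [w.mem_W] at *
  exact h.symm

theorem gd_one (hc : c.OK) (hw : TreeOut w) {x : FreeGroup P.S} (hx : c.Qc x) :
    ∀ a ∈ w.W 1 x, Gd c a := by
  induction hx with
  | one => intro a ha; exact absurd rfl ((w.mem_W a 1 1).1 ha)
  | fwd x i hx ih =>
    intro a ha
    rcases W_tri x ha with h | h
    · exact ih a h
    · rw [hw.W_edge, Finset.mem_singleton] at h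
      subst h
      exact ⟨hx, .fwd x i hx, by simp only [vx_of, hc.lab_slot]⟩
  | bwd x i hx ih =>
    intro a ha
    rcases W_tri x ha with h | h
    · exact ih a h
    · have h2 := hw.W_edge ((of (c.lab (c.vx x) i))⁻¹ * x) (c.lab (c.vx x) i)
      rw [mul_inv_cancel_left] at h2
      have h3 := W_symm h
      rw [h2, Finset.mem_singleton] at h3
      subst h3
      refine ⟨.bwd x i hx, ?_, ?_⟩
      · simpa only [mul_inv_cancel_left] using hx
      · simp only [mul_inv_cancel_left, hc.lab_slot]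

theorem gd (hc : c.OK) (hw : TreeOut w) {x y : FreeGroup P.S} (hx : c.Qc x) (hy : c.Qc y)
    {a : FreeGroup P.S × P.S} (ha : a ∈ w.W x y) : Gd c a :=
  (W_tri 1 ha).elim (fun h => gd_one hc hw hx a (W_symm h)) (gd_one hc hw hy a)

theorem edge (hc : c.OK) (hw : TreeOut w) {x : FreeGroup P.S} {s : P.S} (hx : c.Qc x)
    (hy : c.Qc (of s * x)) : s = c.lab (c.vx (of s * x)) (P.slot s) :=
  (gd hc hw hx hy (a := (x, s)) (by rw [hw.W_edge]; exact Finset.mem_singleton_self _)).2.2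

theorem last_mem (hw : TreeOut w) {l : P.S × Bool} {v : List (P.S × Bool)}
    (h : IsReduced (l :: v)) (x : FreeGroup P.S) {a : FreeGroup P.S × P.S}
    (ha : ∀ b ∈ w.W (mk v * x) (mk (l :: v) * x), b = a) : a ∈ w.W x (mk (l :: v) * x) := by
  by_contra hn
  obtain ⟨h1, h2⟩ := hw.word [l] v x h
  have h3 : w.W x (mk (l :: v) * x) ⊆ w.W x (mk v * x) := fun b hb =>
    (W_tri (mk v * x) hb).resolve_right fun h4 => hn (ha b h4 ▸ hb)
  have h4 := Finset.card_le_card h3
  unfold PreWS.d at h1 h2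
  rw [h1] at h4
  rw [List.singleton_append] at h2
  rw [h2] at h4
  simp at h4

theorem tail_mem (hc : c.OK) (hw : TreeOut w) {l : P.S × Bool} {v : List (P.S × Bool)}
    (h : IsReduced (l :: v)) {x : FreeGroup P.S} (hx : c.Qc x) (hy : c.Qc (mk (l :: v) * x)) :
    c.Qc (mk v * x) := by
  obtain ⟨s, b⟩ := l
  cases b
  · have e : mk v * x = of s * (mk ((s, false) :: v) * x) := by
      rw [mk_cons (s, false) v, mk_false, mul_assoc, mul_inv_cancel_left]
    have h2 := gd hc hw hx hy (last_mem hw h x (a := (mk ((s, false) :: v) * x, s)) fun b hb => by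
      have h3 := W_symm hb
      rw [e, hw.W_edge, Finset.mem_singleton] at h3
      exact h3)
    rw [e]
    exact h2.2.1
  · have e : mk ((s, true) :: v) * x = of s * (mk v * x) := by
      rw [mk_cons (s, true) v, mk_true, mul_assoc]
    exact (gd hc hw hx hy (last_mem hw h x (a := (mk v * x, s)) fun b hb => by
      rwa [e, hw.W_edge, Finset.mem_singleton] at hb)).1

theorem sw_red (hc : c.OK) (hw : TreeOut w) {x : FreeGroup P.S} (hx : c.Qc x) :
    ∀ v : List (P.S × Bool), IsReduced v → c.Qc (mk v * x) → IsReduced (sw v)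
  | [], _, _ => IsReduced.nil
  | [_], _, _ => IsReduced.singleton
  | (s, b) :: (s', b') :: v, h, h2 => by
    have h1 := tail_mem hc hw h hx h2
    have h0 := tail_mem hc hw (red_tail h) hx h1
    refine isReduced_cons_cons.2 ⟨fun hs => ?_, sw_red hc hw hx _ (red_tail h) h1⟩
    have hs' : P.slot s = P.slot s' := hs
    have hr := (isReduced_cons_cons.1 h).1
    show b = b'
    rw [mk_cons _ ((s', b') :: v), mul_assoc] at h2
    have e := mk_cons (s', b') v
    cases b <;> cases b'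
    · rfl
    · refine hr ?_
      have k1 := edge hc hw (s := s) h2 (by rwa [mk_false, mul_inv_cancel_left])
      rw [mk_false, mul_inv_cancel_left] at k1
      rw [e, mk_true, mul_assoc] at h1 k1
      exact k1.trans (hs' ▸ edge hc hw h0 h1).symm
    · refine hr ?_
      have k1 := edge hc hw (s := s) h1 h2
      have k2 := edge hc hw (s := s') h1 (by rwa [e, mk_false, mul_assoc, mul_inv_cancel_left])
      rw [vx_of] at k1 k2
      exact k1.trans (hs' ▸ k2).symm
    · rfl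

theorem walk' (hc : c.OK) {x : FreeGroup P.S} (hx : c.Qc x) :
    ∀ u : List (Lt P.j), ∃ v, sw v = u ∧ c.Qc (mk v * x)
  | [] => ⟨[], rfl, by rwa [mk_nil, one_mul]⟩
  | (i, b) :: u => by
    obtain ⟨v, h1, h2⟩ := walk' hc hx u
    cases b
    · refine ⟨(c.lab (c.vx (mk v * x)) i, false) :: v, by simp [sw, hc.lab_slot, ← h1], ?_⟩
      rw [mk_cons _ v, mk_false, mul_assoc]
      exact .bwd _ i h2
    · refine ⟨(c.lab (c.τ i (c.vx (mk v * x))) i, true) :: v, by simp [sw, hc.lab_slot, ← h1], ?_⟩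
      rw [mk_cons _ v, mk_true, mul_assoc]
      exact .fwd _ i h2

theorem red_of_sw {v : List (P.S × Bool)} (h : IsReduced (sw v)) : IsReduced v := by
  unfold FreeGroup.IsReduced sw at *
  rw [List.isChain_map] at h
  exact h.imp fun a b hab h2 => hab (congrArg P.slot h2)

theorem walk (hc : c.OK) (x : FreeGroup P.S) (u : List (Lt P.j)) (hx : c.Qc x)
    (hu : IsReduced u) :
    ∃ a, nr a = u.length ∧ c.Qc (a * x) ∧ c.cp (a * x) = go (dbl c.τ) u (c.cp x) := by
  obtain ⟨v, rfl, h2⟩ := walk' hc hx u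
  exact ⟨mk v, by rw [nr_mk (red_of_sw hu), sw, List.length_map], h2, cp_mk x v⟩

theorem unwalk (hc : c.OK) (hw : TreeOut w) (x a : FreeGroup P.S) (hx : c.Qc x)
    (ha : c.Qc (a * x)) : ∃ u, FreeGroup.IsReduced u ∧ u.length = nr a ∧
      c.cp (a * x) = go (dbl c.τ) u (c.cp x) := by
  obtain ⟨v, hv, rfl⟩ := ex_red a
  exact ⟨sw v, sw_red hc hw hx v hv ha, by rw [nr_mk hv, sw, List.length_map], cp_mk x v⟩

theorem cov (hc : c.OK) (ht : HtOut c.τ c.g) (x z : FreeGroup P.S) (hx : c.Qc x) (hz : c.Qc z) :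
    ∃ k ∈ c.Kg, nr (x * (z * k)⁻¹) = dC c.τ (c.cp x) (c.cp z) := by
  obtain ⟨u, h1, h2, h3⟩ := ht.conn (c.cp x) (c.cp z)
  obtain ⟨a, h4, h5, h6⟩ := walk hc x u hx h1
  refine ⟨z⁻¹ * (a * x), (cp_eq hc z _ hz h5).1 (h6.trans h3).symm, ?_⟩
  rw [mul_inv_cancel_left, mul_inv_rev, mul_inv_cancel_left, nr_inv, h4, h2]

theorem rp (hc : c.OK) (ht : HtOut c.τ c.g) (d : c.V × ZMod 2) :
    c.Qc (c.rp d) ∧ c.cp (c.rp d) = d := by
  refine Classical.epsilon_spec (p := fun x => c.Qc x ∧ c.cp x = d) ?_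
  obtain ⟨u, h1, -, h3⟩ := ht.conn (c.cp 1) d
  obtain ⟨a, -, h5, h6⟩ := walk hc 1 u .one h1
  exact ⟨_, h5, h6.trans h3⟩

theorem out (hj : 1 ≤ P.j) (hc : c.OK) (hw : TreeOut w) (ht : HtOut c.τ c.g) : BasOut c where
  conn := conn
  div := div hc
  mulP := mulP
  vx_mul := vx_mul
  pr_mul := pr_mul
  memP := memP hc
  memK := memK hc
  conjK p hp k hk := by
    rw [memK' hc] at *
    exact ⟨mul_mem (mul_mem (inv_mem hp) hk.1) hp,
      by rw [pr_mul, pr_mul, pr_inv, hk.2, add_zero, neg_add_cancel]⟩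
  rp := rp hc ht
  cp_eq := cp_eq hc
  edge x s hx hy := ⟨edge hc hw hx hy, cp_of s x⟩
  walk := walk hc
  unwalk := unwalk hc hw
  disp x hx p hp hne := by
    obtain ⟨h1, h2⟩ := (memP hc p).1 hp
    have e : x * p * x⁻¹ * x = x * p := inv_mul_cancel_right _ _
    obtain ⟨u, h3, h4, h5⟩ := unwalk hc hw x (x * p * x⁻¹) hx (e.symm ▸ mulP x p hx h1 h2)
    have h6 : go c.τ u (c.vx x) = c.vx x := by
      have := congrArg Prod.fst h5
      rw [go_fst, e] at this
      exact this.symm.trans (vx_mul x p h2)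
    have e2 : x * (x * p)⁻¹ = (x * p * x⁻¹)⁻¹ := by group
    rw [e2, nr_inv, ← h4]
    by_contra hlt
    refine hc.girth u h3 (fun h0 => hne ?_) (not_le.1 hlt) _ h6
    rw [h0, List.length_nil, eq_comm, nr_zero] at h4
    simpa using h4
  cov := cov hc ht
  covP x hx z hz := by
    obtain ⟨y, hy, h1⟩ := hc.depth x hx
    obtain ⟨y', hy', h2⟩ := hc.depth z hz
    obtain ⟨k, hk, h3⟩ := cov hc ht y y' hy hy'
    refine ⟨k, hk, ?_⟩
    have e : x * (z * k)⁻¹ = x * y⁻¹ * (y * (y' * k)⁻¹) * (z * y'⁻¹)⁻¹ := by group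
    have h4 := ht.d_lt (c.cp y) (c.cp y')
    rw [Nat.card_eq_fintype_card, ← h3] at h4
    have h5 := nr_mul (x * y⁻¹ * (y * (y' * k)⁻¹)) (z * y'⁻¹)⁻¹
    have h6 := nr_mul (x * y⁻¹) (y * (y' * k)⁻¹)
    rw [nr_inv] at h5
    have hS : 1 ≤ Fintype.card P.S := Fintype.card_pos_iff.2 ⟨c.lab c.v0 ⟨0, hj⟩⟩
    have hV : 1 ≤ Fintype.card c.V := Fintype.card_pos
    have h7 : c.R2 + 1 < (2 * Fintype.card P.S + 1) ^ (c.R2 + 1) := Nat.lt_pow_self (by omega)
    rw [e, Cell.sz]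
    nlinarith
  iota := by
    obtain ⟨h1, h2⟩ := rp hc ht (c.v0, 1)
    exact ⟨_, (memP hc _).2 ⟨h1, congrArg Prod.fst h2⟩, congrArg Prod.snd h2⟩
  same δ δ' := by
    rw [memP hc]
    constructor
    · intro h
      have key : ∀ a, c.Qc a → c.Qc (a * (δ' * δ⁻¹)) := fun a ha => by
        have h1 : a * δ' ∈ {x | c.Qc (x * δ'⁻¹)} := by
          show c.Qc _
          rwa [mul_inv_cancel_right]
        rw [← h] at h1
        rw [← mul_assoc]
        exact h1
      have h1 : c.Qc (δ' * δ⁻¹) := by simpa using key 1 .one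
      obtain ⟨a, h2, h3, -⟩ := walk hc 1 (List.replicate c.L (⟨0, hj⟩, true)) .one
        (List.isChain_replicate_of_rel _ fun _ => rfl)
      refine ⟨h1, (hc.pc2 1 _ a .one h1 h3 (key a (by simpa using h3)) ?_).symm.trans vx_one⟩
      rw [h2, List.length_replicate]
    · rintro ⟨h1, h2⟩
      obtain ⟨h3, h4⟩ := invP hc h1 h2
      ext x
      constructor
      · intro h
        have := mulP _ _ h h3 h4
        simpa [mul_assoc] using this
      · intro h
        have := mulP _ _ h h1 h2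
        simpa [mul_assoc] using this
  ht := ht

end Bas

theorem pBas (hT : StTree) (_hP : StPre) (hH : StHt) : StBas := fun P c hj hc => by
  obtain ⟨w, hw⟩ := hT P.S
  exact Bas.out hj hc hw
    (hH P.j c.g c.V c.τ (1 / 10 ^ 8) hj (by norm_num) (by norm_num) hc.girth hc.gap)

end Pool.Agent.P.MP_9167e9_an
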